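import Mathlib
import Pool.Agent.W5h88.HomSos
import Pool.Agent.W5h88.SosLimit
import Pool.Agent.W5h88.MotzkinNot
import Pool.Agent.W5h88.PsdPart

/-!
# Strict positivity does not suffice in the any-dimensional Reznick theorem (Q2)

Let `P = 4/57 p₂`, `Q(t) = (t - P)(t - 4P)(t - 9P)`, let `D₁, D₂, D₃` be the sums over the
variables of `x⁴ Q(x²) (x² - 4P)(x² - 9P)`, `x⁴ Q(x²) (x² - P)(x² - 9P)`,
`x⁴ Q(x²) (x² - P)(x² - 4P)` and `H` the sum of `x⁴ Q(x²)²`. They are polynomials in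
`p₂, p₄, ..., p₁₆`. The even symmetric function `f = M(D₁, D₂, D₃) + p₂¹⁰ H⁴`, `M` the Motzkin
form, is homogeneous of degree `84`. On the unit sphere of `ℓ²` one has `H > 0`, since otherwise
all `x_i²` were `0, 4/57, 16/57` or `36/57`, whose sums are never `1`. So `f > 0` there. But at the
point `(1, 2, 3)` with an additional mass `1/4` spread over infinitely many infinitely small
coordinates `f` vanishes to order six, with leading form `M` in suitable local coordinates. Points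
near it are approximated by points with `3 + n²` coordinates at scale `1 / n`, and a limit of sums
of squares of polynomials of bounded degree in three variables is a sum of squares.
-/

set_option autoImplicit false

open MvPolynomial Filter Topology

namespace Pool.Agent.Results.MP_2f3180_ag.AnyDimSosFails

/-- The truncation `f^{(n)}`, a polynomial in `X_0, ..., X_(n-1)`, of the symmetric function
`f = g(p_1, p_2, ...)`: the power sums `p_j` are replaced by `X_0 ^ j + ... + X_(n-1) ^ j` (the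
variable of `g` with index `j` stands for `p_j`). -/
noncomputable def trunc (g : MvPolynomial ℕ ℝ) (n : ℕ) : MvPolynomial (Fin n) ℝ :=
  aeval (fun j => ∑ i : Fin n, X i ^ j) g

/-- The symmetric function `g(p_1, p_2, ...)` is an any-dimensional sum of squares: all its
truncations, for `n ≥ 1`, are sums of squares of real polynomials. -/
def AnyDimSos (g : MvPolynomial ℕ ℝ) : Prop :=
  ∀ n : ℕ, 1 ≤ n → ∃ (m : ℕ) (h : Fin m → MvPolynomial (Fin n) ℝ), trunc g n = ∑ i, h i ^ 2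

/-- The value `g(p_1(x), p_2(x), ...)` of the symmetric function at a sequence `x`, where
`p_j(x) = ∑ x_i ^ j`. -/
noncomputable def value (g : MvPolynomial ℕ ℝ) (x : ℕ → ℝ) : ℝ :=
  eval (fun j => ∑' i, x i ^ j) g

/-- `x` is a square summable sequence with `p_2(x) = 1`. -/
def InSphere (x : ℕ → ℝ) : Prop :=
  Summable (fun i => x i ^ 2) ∧ ∑' i, x i ^ 2 = 1

/-! ### The example -/

/-- `4/57 p₂` -/
noncomputable def gP : MvPolynomial ℕ ℝ := C (4 / 57) * X 2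
/-- `∑ x⁴ Q(x²)` -/
noncomputable def gA : MvPolynomial ℕ ℝ :=
  X 10 - C 14 * gP * X 8 + C 49 * gP ^ 2 * X 6 - C 36 * gP ^ 3 * X 4
/-- `∑ x⁶ Q(x²)` -/
noncomputable def gB : MvPolynomial ℕ ℝ :=
  X 12 - C 14 * gP * X 10 + C 49 * gP ^ 2 * X 8 - C 36 * gP ^ 3 * X 6
/-- `∑ x⁸ Q(x²)` -/
noncomputable def gC : MvPolynomial ℕ ℝ :=
  X 14 - C 14 * gP * X 12 + C 49 * gP ^ 2 * X 10 - C 36 * gP ^ 3 * X 8
/-- `∑ x⁴ Q(x²)²` -/
noncomputable def gH : MvPolynomial ℕ ℝ :=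
  X 16 - C 28 * gP * X 14 + C 294 * gP ^ 2 * X 12 - C 1444 * gP ^ 3 * X 10 +
    C 3409 * gP ^ 4 * X 8 - C 3528 * gP ^ 5 * X 6 + C 1296 * gP ^ 6 * X 4
/-- `D₁` -/
noncomputable def gD1 : MvPolynomial ℕ ℝ := gC - C 13 * gP * gB + C 36 * gP ^ 2 * gA
/-- `D₂` -/
noncomputable def gD2 : MvPolynomial ℕ ℝ := gC - C 10 * gP * gB + C 9 * gP ^ 2 * gA
/-- `D₃` -/
noncomputable def gD3 : MvPolynomial ℕ ℝ := gC - C 5 * gP * gB + C 4 * gP ^ 2 * gA

/-- the example -/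
noncomputable def ex : MvPolynomial ℕ ℝ :=
  gD1 ^ 4 * gD2 ^ 2 + gD1 ^ 2 * gD2 ^ 4 - C 3 * (gD1 ^ 2 * gD2 ^ 2 * gD3 ^ 2) + gD3 ^ 6 +
    X 2 ^ 10 * gH ^ 4

theorem eval_ex (v : ℕ → ℝ) : eval v ex =
    W5h88.ff (v 2) (v 4) (v 6) (v 8) (v 10) (v 12) (v 14) (v 16) := by
  have hP : eval v gP = W5h88.pP (v 2) := by simp [gP, W5h88.pP]
  have hA : eval v gA = W5h88.mA (W5h88.pP (v 2)) (v 4) (v 6) (v 8) (v 10) := by
    simp only [gA, W5h88.mA, map_add, map_sub, map_mul, map_pow, eval_C, eval_X, hP]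
  have hB : eval v gB = W5h88.mB (W5h88.pP (v 2)) (v 6) (v 8) (v 10) (v 12) := by
    simp only [gB, W5h88.mB, map_add, map_sub, map_mul, map_pow, eval_C, eval_X, hP]
  have hC : eval v gC = W5h88.mC (W5h88.pP (v 2)) (v 8) (v 10) (v 12) (v 14) := by
    simp only [gC, W5h88.mC, map_add, map_sub, map_mul, map_pow, eval_C, eval_X, hP]
  have hH : eval v gH = W5h88.mH (W5h88.pP (v 2)) (v 4) (v 6) (v 8) (v 10) (v 12) (v 14)
      (v 16) := by
    simp only [gH, W5h88.mH, map_add, map_sub, map_mul, map_pow, eval_C, eval_X, hP]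
  have h1 : eval v gD1 = W5h88.mD1 (W5h88.pP (v 2)) (v 4) (v 6) (v 8) (v 10) (v 12) (v 14) := by
    simp only [gD1, W5h88.mD1, map_add, map_sub, map_mul, map_pow, eval_C, hP, hA, hB, hC]
  have h2 : eval v gD2 = W5h88.mD2 (W5h88.pP (v 2)) (v 4) (v 6) (v 8) (v 10) (v 12) (v 14) := by
    simp only [gD2, W5h88.mD2, map_add, map_sub, map_mul, map_pow, eval_C, hP, hA, hB, hC]
  have h3 : eval v gD3 = W5h88.mD3 (W5h88.pP (v 2)) (v 4) (v 6) (v 8) (v 10) (v 12) (v 14) := by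
    simp only [gD3, W5h88.mD3, map_add, map_sub, map_mul, map_pow, eval_C, hP, hA, hB, hC]
  simp only [ex, W5h88.ff, W5h88.motz, map_add, map_sub, map_mul, map_pow, eval_C, eval_X,
    h1, h2, h3, hH]

/-! ### The variables and the degree of the example -/

/-- the indices that occur -/
def idx : Set ℕ := {2, 4, 6, 8, 10, 12, 14, 16}

theorem ex_mem : ex ∈ supported ℝ idx := by
  have hX : ∀ j ∈ idx, (X j : MvPolynomial ℕ ℝ) ∈ supported ℝ idx := fun j hj =>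
    X_mem_supported.mpr hj
  have hC : ∀ c : ℝ, (C c : MvPolynomial ℕ ℝ) ∈ supported ℝ idx := fun c =>
    Subalgebra.algebraMap_mem _ c
  have x2 := hX 2 (by simp [idx])
  have x4 := hX 4 (by simp [idx])
  have x6 := hX 6 (by simp [idx])
  have x8 := hX 8 (by simp [idx])
  have x10 := hX 10 (by simp [idx])
  have x12 := hX 12 (by simp [idx])
  have x14 := hX 14 (by simp [idx])
  have x16 := hX 16 (by simp [idx])
  have hP : gP ∈ supported ℝ idx := mul_mem (hC _) x2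
  have term : ∀ (c : ℝ) (e : ℕ) {q : MvPolynomial ℕ ℝ}, q ∈ supported ℝ idx →
      C c * gP ^ e * q ∈ supported ℝ idx := fun c e q hq =>
    mul_mem (mul_mem (hC c) (pow_mem hP e)) hq
  have term1 : ∀ (c : ℝ) {q : MvPolynomial ℕ ℝ}, q ∈ supported ℝ idx →
      C c * gP * q ∈ supported ℝ idx := fun c q hq =>
    mul_mem (mul_mem (hC c) hP) hq
  have hA : gA ∈ supported ℝ idx :=
    sub_mem (add_mem (sub_mem x10 (term1 _ x8)) (term _ _ x6)) (term _ _ x4)
  have hB : gB ∈ supported ℝ idx :=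
    sub_mem (add_mem (sub_mem x12 (term1 _ x10)) (term _ _ x8)) (term _ _ x6)
  have hCC : gC ∈ supported ℝ idx :=
    sub_mem (add_mem (sub_mem x14 (term1 _ x12)) (term _ _ x10)) (term _ _ x8)
  have hH : gH ∈ supported ℝ idx :=
    add_mem (sub_mem (add_mem (sub_mem (add_mem (sub_mem x16 (term1 _ x14)) (term _ _ x12))
      (term _ _ x10)) (term _ _ x8)) (term _ _ x6)) (term _ _ x4)
  have h1 : gD1 ∈ supported ℝ idx := add_mem (sub_mem hCC (term1 _ hB)) (term _ _ hA)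
  have h2 : gD2 ∈ supported ℝ idx := add_mem (sub_mem hCC (term1 _ hB)) (term _ _ hA)
  have h3 : gD3 ∈ supported ℝ idx := add_mem (sub_mem hCC (term1 _ hB)) (term _ _ hA)
  exact add_mem (add_mem (sub_mem (add_mem (mul_mem (pow_mem h1 4) (pow_mem h2 2))
    (mul_mem (pow_mem h1 2) (pow_mem h2 4)))
    (mul_mem (hC 3) (mul_mem (mul_mem (pow_mem h1 2) (pow_mem h2 2)) (pow_mem h3 2))))
    (pow_mem h3 6)) (mul_mem (pow_mem x2 10) (pow_mem hH 4))

theorem ex_vars : ∀ j ∈ ex.vars, Even j ∧ 2 ≤ j ∧ j ≤ 2 * 42 := by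
  intro j hj
  have h : j ∈ idx := (mem_supported.mp ex_mem) hj
  simp only [idx, Set.mem_insert_iff, Set.mem_singleton_iff] at h
  rcases h with h | h | h | h | h | h | h | h <;> subst h <;> decide

/-- weighted homogeneous -/
abbrev WH (g : MvPolynomial ℕ ℝ) (d : ℕ) : Prop := g.IsWeightedHomogeneous (id : ℕ → ℕ) d

theorem wX (j : ℕ) : WH (X j) j := isWeightedHomogeneous_X ℝ (id : ℕ → ℕ) j

theorem wC (c : ℝ) : WH (C c) 0 := isWeightedHomogeneous_C (id : ℕ → ℕ) c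

theorem wmul {g h : MvPolynomial ℕ ℝ} {a b : ℕ} (c : ℕ) (hg : WH g a) (hh : WH h b)
    (e : a + b = c) : WH (g * h) c := e ▸ hg.mul hh

theorem wpow {g : MvPolynomial ℕ ℝ} {a : ℕ} (n c : ℕ) (hg : WH g a) (e : n * a = c) :
    WH (g ^ n) c := by
  have := hg.pow n
  rw [smul_eq_mul, e] at this
  exact this

theorem wP : WH gP 2 := wmul 2 (wC _) (wX 2) rfl

theorem wterm (c : ℝ) (n a b : ℕ) {q : MvPolynomial ℕ ℝ} (hq : WH q a) (e : 2 * n + a = b) :
    WH (C c * gP ^ n * q) b :=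
  wmul b (wmul (2 * n) (wC c) (wpow n (2 * n) wP (by ring)) (by ring)) hq e

theorem wterm1 (c : ℝ) (a b : ℕ) {q : MvPolynomial ℕ ℝ} (hq : WH q a) (e : 2 + a = b) :
    WH (C c * gP * q) b := wmul b (wmul 2 (wC c) wP rfl) hq e

theorem wA : WH gA 10 :=
  (((wX 10).sub (wterm1 _ 8 10 (wX 8) rfl)).add (wterm _ 2 6 10 (wX 6) rfl)).sub
    (wterm _ 3 4 10 (wX 4) rfl)

theorem wB : WH gB 12 :=
  (((wX 12).sub (wterm1 _ 10 12 (wX 10) rfl)).add (wterm _ 2 8 12 (wX 8) rfl)).sub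
    (wterm _ 3 6 12 (wX 6) rfl)

theorem wCC : WH gC 14 :=
  (((wX 14).sub (wterm1 _ 12 14 (wX 12) rfl)).add (wterm _ 2 10 14 (wX 10) rfl)).sub
    (wterm _ 3 8 14 (wX 8) rfl)

theorem wH : WH gH 16 :=
  ((((((wX 16).sub (wterm1 _ 14 16 (wX 14) rfl)).add (wterm _ 2 12 16 (wX 12) rfl)).sub
    (wterm _ 3 10 16 (wX 10) rfl)).add (wterm _ 4 8 16 (wX 8) rfl)).sub
    (wterm _ 5 6 16 (wX 6) rfl)).add (wterm _ 6 4 16 (wX 4) rfl)

theorem wD1 : WH gD1 14 := (wCC.sub (wterm1 _ 12 14 wB rfl)).add (wterm _ 2 10 14 wA rfl)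
theorem wD2 : WH gD2 14 := (wCC.sub (wterm1 _ 12 14 wB rfl)).add (wterm _ 2 10 14 wA rfl)
theorem wD3 : WH gD3 14 := (wCC.sub (wterm1 _ 12 14 wB rfl)).add (wterm _ 2 10 14 wA rfl)

theorem ex_hom : WH ex (2 * 42) := by
  have h1 : WH (gD1 ^ 4 * gD2 ^ 2) (2 * 42) :=
    wmul _ (wpow 4 56 wD1 rfl) (wpow 2 28 wD2 rfl) rfl
  have h2 : WH (gD1 ^ 2 * gD2 ^ 4) (2 * 42) :=
    wmul _ (wpow 2 28 wD1 rfl) (wpow 4 56 wD2 rfl) rfl
  have h3 : WH (C 3 * (gD1 ^ 2 * gD2 ^ 2 * gD3 ^ 2)) (2 * 42) :=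
    wmul _ (wC 3) (wmul 84 (wmul 56 (wpow 2 28 wD1 rfl) (wpow 2 28 wD2 rfl) rfl)
      (wpow 2 28 wD3 rfl) rfl) rfl
  have h4 : WH (gD3 ^ 6) (2 * 42) := wpow 6 _ wD3 rfl
  have h5 : WH (X 2 ^ 10 * gH ^ 4) (2 * 42) :=
    wmul _ (wpow 10 20 (wX 2) rfl) (wpow 4 64 wH rfl) rfl
  exact (((h1.add h2).sub h3).add h4).add h5

/-! ### Positivity on the sphere -/

theorem sq_le_one' {x : ℕ → ℝ} (hx : InSphere x) (i : ℕ) : x i ^ 2 ≤ 1 := by
  rw [← hx.2]
  exact hx.1.le_tsum i (fun j _ => sq_nonneg _)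

theorem summable_pow {x : ℕ → ℝ} (hx : InSphere x) (j : ℕ) :
    Summable fun i => x i ^ (2 * (j + 1)) := by
  refine Summable.of_nonneg_of_le (fun i => ?_) (fun i => ?_) hx.1
  · rw [pow_mul]; positivity
  · rw [pow_mul, pow_succ]
    have h1 := sq_le_one' hx i
    have h2 : (x i ^ 2) ^ j ≤ 1 := pow_le_one₀ (sq_nonneg _) h1
    nlinarith [sq_nonneg (x i)]

theorem hasSum_H {x : ℕ → ℝ} (hx : InSphere x) (P : ℝ) :
    HasSum (fun i => x i ^ 4 * ((x i ^ 2 - P) * (x i ^ 2 - 4 * P) * (x i ^ 2 - 9 * P)) ^ 2)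
      (W5h88.mH P (∑' i, x i ^ 4) (∑' i, x i ^ 6) (∑' i, x i ^ 8) (∑' i, x i ^ 10)
        (∑' i, x i ^ 12) (∑' i, x i ^ 14) (∑' i, x i ^ 16)) := by
  have s4 : HasSum (fun i => x i ^ 4) (∑' i, x i ^ 4) := (summable_pow hx 1).hasSum
  have s6 : HasSum (fun i => x i ^ 6) (∑' i, x i ^ 6) := (summable_pow hx 2).hasSum
  have s8 : HasSum (fun i => x i ^ 8) (∑' i, x i ^ 8) := (summable_pow hx 3).hasSum
  have s10 : HasSum (fun i => x i ^ 10) (∑' i, x i ^ 10) := (summable_pow hx 4).hasSum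
  have s12 : HasSum (fun i => x i ^ 12) (∑' i, x i ^ 12) := (summable_pow hx 5).hasSum
  have s14 : HasSum (fun i => x i ^ 14) (∑' i, x i ^ 14) := (summable_pow hx 6).hasSum
  have s16 : HasSum (fun i => x i ^ 16) (∑' i, x i ^ 16) := (summable_pow hx 7).hasSum
  have h := ((((((s16.sub (s14.mul_left (28 * P))).add (s12.mul_left (294 * P ^ 2))).sub
    (s10.mul_left (1444 * P ^ 3))).add (s8.mul_left (3409 * P ^ 4))).sub
    (s6.mul_left (3528 * P ^ 5))).add (s4.mul_left (1296 * P ^ 6)))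
  unfold W5h88.mH
  have e : (fun i => x i ^ 4 * ((x i ^ 2 - P) * (x i ^ 2 - 4 * P) * (x i ^ 2 - 9 * P)) ^ 2) =
      fun i => x i ^ 16 - 28 * P * x i ^ 14 + 294 * P ^ 2 * x i ^ 12 - 1444 * P ^ 3 * x i ^ 10 +
        3409 * P ^ 4 * x i ^ 8 - 3528 * P ^ 5 * x i ^ 6 + 1296 * P ^ 6 * x i ^ 4 := by
    funext i
    ring
  rw [e]
  exact h

theorem mH_pos {x : ℕ → ℝ} (hx : InSphere x) :
    0 < W5h88.mH (4 / 57) (∑' i, x i ^ 4) (∑' i, x i ^ 6) (∑' i, x i ^ 8) (∑' i, x i ^ 10)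
        (∑' i, x i ^ 12) (∑' i, x i ^ 14) (∑' i, x i ^ 16) := by
  have h := hasSum_H hx (4 / 57)
  have hnn : ∀ i, 0 ≤ x i ^ 4 * ((x i ^ 2 - 4 / 57) * (x i ^ 2 - 4 * (4 / 57)) *
      (x i ^ 2 - 9 * (4 / 57))) ^ 2 := fun i =>
    mul_nonneg (by positivity) (sq_nonneg _)
  rcases (h.nonneg hnn).lt_or_eq with hlt | heq
  · exact hlt
  · exfalso
    rw [← heq] at h
    have hz := (hasSum_zero_iff_of_nonneg hnn).mp h
    have hc : ∀ i, ∃ c : ℕ, x i ^ 2 = c * (4 / 57) := by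
      intro i
      have h0 : x i ^ 4 * ((x i ^ 2 - 4 / 57) * (x i ^ 2 - 4 * (4 / 57)) *
          (x i ^ 2 - 9 * (4 / 57))) ^ 2 = 0 := congrFun hz i
      rcases mul_eq_zero.mp h0 with h1 | h1
      · have : x i = 0 := pow_eq_zero_iff (by norm_num) |>.mp h1
        exact ⟨0, by rw [this]; norm_num⟩
      · have h2 := pow_eq_zero_iff two_ne_zero |>.mp h1
        rcases mul_eq_zero.mp h2 with h3 | h3
        · rcases mul_eq_zero.mp h3 with h4 | h4
          · exact ⟨1, by push_cast; linarith⟩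
          · exact ⟨4, by push_cast; linarith⟩
        · exact ⟨9, by push_cast; linarith⟩
    choose c hc using hc
    have hfin : {i | c i ≠ 0}.Finite := by
      have h1 := hx.1.tendsto_cofinite_zero
      have h2 : ∀ᶠ i in cofinite, x i ^ 2 < 4 / 57 :=
        h1.eventually_lt_const (by norm_num)
      have h3 : {i | ¬ x i ^ 2 < 4 / 57}.Finite := h2
      refine h3.subset fun i hi => ?_
      simp only [Set.mem_ofPred_eq, not_lt] at hi ⊢
      rw [hc i]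
      have : (1 : ℝ) ≤ c i := by exact_mod_cast Nat.one_le_iff_ne_zero.mpr hi
      nlinarith
    have h1 : ∑' i, x i ^ 2 = ∑ i ∈ hfin.toFinset, x i ^ 2 := by
      refine tsum_eq_sum fun i hi => ?_
      have : c i = 0 := by
        by_contra hne
        exact hi (hfin.mem_toFinset.mpr hne)
      rw [hc i, this]
      norm_num
    rw [hx.2, Finset.sum_congr rfl fun i _ => hc i, ← Finset.sum_mul] at h1
    have h2 : (4 : ℝ) * ∑ i ∈ hfin.toFinset, (c i : ℝ) = 57 := by linarith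
    have h3 : 4 * ∑ i ∈ hfin.toFinset, c i = 57 := by exact_mod_cast h2
    omega

theorem ex_pos {x : ℕ → ℝ} (hx : InSphere x) : 0 < value ex x := by
  rw [value, eval_ex, hx.2, W5h88.ff]
  have h1 : W5h88.pP 1 = 4 / 57 := by unfold W5h88.pP; ring
  rw [h1]
  have h2 := mH_pos hx
  have h3 := W5h88.motz_nonneg
    (W5h88.mD1 (4 / 57) (∑' i, x i ^ 4) (∑' i, x i ^ 6) (∑' i, x i ^ 8) (∑' i, x i ^ 10)
      (∑' i, x i ^ 12) (∑' i, x i ^ 14))
    (W5h88.mD2 (4 / 57) (∑' i, x i ^ 4) (∑' i, x i ^ 6) (∑' i, x i ^ 8) (∑' i, x i ^ 10)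
      (∑' i, x i ^ 12) (∑' i, x i ^ 14))
    (W5h88.mD3 (4 / 57) (∑' i, x i ^ 4) (∑' i, x i ^ 6) (∑' i, x i ^ 8) (∑' i, x i ^ 10)
      (∑' i, x i ^ 12) (∑' i, x i ^ 14))
  have h4 := pow_pos h2 4
  rw [one_pow, one_mul]
  linarith

/-! ### No certificate -/

theorem trunc_hom {g : MvPolynomial ℕ ℝ} {D : ℕ} (hg : WH g D) (n : ℕ) :
    (trunc g n).IsHomogeneous D := by
  rw [trunc, aeval_def, eval₂_eq]
  refine IsHomogeneous.sum _ _ _ fun e he => ?_
  have h1 : Finsupp.weight (id : ℕ → ℕ) e = D := hg (mem_support_iff.mp he)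
  have h2 : (∏ j ∈ e.support, (∑ i : Fin n, (X i : MvPolynomial (Fin n) ℝ) ^ j) ^ e j).IsHomogeneous
      (∑ j ∈ e.support, j * e j) :=
    IsHomogeneous.prod _ _ _ fun j _ =>
      (IsHomogeneous.sum _ _ _ fun i _ => by simpa using (isHomogeneous_X ℝ i).pow j).pow (e j)
  have h3 : ∑ j ∈ e.support, j * e j = D := by
    rw [← h1, Finsupp.weight_apply, Finsupp.sum]
    refine Finset.sum_congr rfl fun j _ => ?_
    rw [smul_eq_mul, id, mul_comm]
  rw [h3] at h2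
  have h4 := (isHomogeneous_C (Fin n) (coeff e g)).mul h2
  rw [zero_add] at h4
  exact h4

theorem eval_aeval {σ τ : Type} (F : σ → MvPolynomial τ ℝ) (f : MvPolynomial σ ℝ) (v : τ → ℝ) :
    eval v (aeval F f) = eval (fun i => eval v (F i)) f := by
  rw [← coe_aeval_eq_eval, ← coe_aeval_eq_eval]
  change ((aeval v).comp (aeval F)) f = _
  rw [comp_aeval]
  rfl

theorem eval_trunc (g : MvPolynomial ℕ ℝ) (n : ℕ) (v : Fin n → ℝ) :
    eval v (trunc g n) = eval (fun j => ∑ i, v i ^ j) g := by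
  rw [trunc, eval_aeval]
  simp only [map_sum, map_pow, eval_X]

theorem totalDegree_aeval_le {σ τ : Type} (Γ : σ → MvPolynomial τ ℝ)
    (hΓ : ∀ a, (Γ a).totalDegree ≤ 1) {F : MvPolynomial σ ℝ} {t : ℕ} (hF : F.IsHomogeneous t) :
    (aeval Γ F).totalDegree ≤ t := by
  rw [aeval_def, eval₂_eq]
  refine totalDegree_finsetSum_le fun d hd => ?_
  refine (totalDegree_mul _ _).trans ?_
  have h0 : (algebraMap ℝ (MvPolynomial τ ℝ) (F.coeff d)).totalDegree = 0 := totalDegree_C _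
  rw [h0, zero_add]
  refine (totalDegree_finsetProd _ _).trans ?_
  have h1 : d.degree = t := by
    by_contra hne
    exact mem_support_iff.mp hd (hF.coeff_eq_zero hne)
  calc ∑ i ∈ d.support, (Γ i ^ d i).totalDegree ≤ ∑ i ∈ d.support, d i * 1 :=
        Finset.sum_le_sum fun i _ => (totalDegree_pow _ _).trans
          (Nat.mul_le_mul_left _ (hΓ i))
    _ = t := by
        rw [← Finset.sum_mul, mul_one, ← h1]
        rfl

/-- the affine parametrisation of the points with `3 + N` coordinates -/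
noncomputable def Y (N : ℕ) (e : ℝ) : Fin (3 + N) → MvPolynomial (Fin 3) ℝ :=
  Fin.append
    ![C 1 + C (e / 2) * (X 0 + C 4 * (X 0 + X 1 + X 2)),
      C 2 + C (e / 4) * (X 1 + C 16 * (X 0 + X 1 + X 2)),
      C 3 + C (e / 6) * (X 2 + C 36 * (X 0 + X 1 + X 2))]
    (fun _ => C (e / 2))

theorem deg_lin (a b c : ℝ) (i : Fin 3) :
    (C a + C b * (X i + C c * (X 0 + X 1 + X 2)) : MvPolynomial (Fin 3) ℝ).totalDegree ≤ 1 := by
  have hC : ∀ c : ℝ, (C c : MvPolynomial (Fin 3) ℝ).totalDegree = 0 := fun c => totalDegree_C c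
  have hX : ∀ i : Fin 3, (X i : MvPolynomial (Fin 3) ℝ).totalDegree = 1 := fun i => totalDegree_X i
  have hs : (X 0 + X 1 + X 2 : MvPolynomial (Fin 3) ℝ).totalDegree ≤ 1 := by
    refine (totalDegree_add _ _).trans (max_le ((totalDegree_add _ _).trans (max_le ?_ ?_)) ?_)
    all_goals rw [hX]
  refine (totalDegree_add _ _).trans (max_le (by rw [hC]; exact Nat.zero_le _) ?_)
  refine (totalDegree_mul _ _).trans ?_
  rw [hC, zero_add]
  refine (totalDegree_add _ _).trans (max_le (by rw [hX]) ?_)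
  refine (totalDegree_mul _ _).trans ?_
  rw [hC, zero_add]
  exact hs

theorem Y_deg (N : ℕ) (e : ℝ) (c : Fin (3 + N)) : (Y N e c).totalDegree ≤ 1 := by
  refine Fin.addCases (fun i => ?_) (fun i => ?_) c
  · rw [Y, Fin.append_left]
    fin_cases i
    · exact deg_lin _ _ _ _
    · exact deg_lin _ _ _ _
    · exact deg_lin _ _ _ _
  · rw [Y, Fin.append_right, totalDegree_C]
    exact Nat.zero_le _

theorem eval_Y (N : ℕ) (e : ℝ) (x : Fin 3 → ℝ) (j : ℕ) :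
    ∑ c, eval x (Y N e c) ^ j =
      W5h88.y0 x e ^ j + W5h88.y1 x e ^ j + W5h88.y2 x e ^ j + N * (e / 2) ^ j := by
  rw [Fin.sum_univ_add, Fin.sum_univ_three]
  simp only [Y, Fin.append_left, Fin.append_right, eval_C, Finset.sum_const, Finset.card_univ,
    Fintype.card_fin, nsmul_eq_mul]
  have h0 : eval x (C 1 + C (e / 2) * (X 0 + C 4 * (X 0 + X 1 + X 2)) : MvPolynomial (Fin 3) ℝ) =
      W5h88.y0 x e := by
    simp only [map_add, map_mul, eval_C, eval_X, W5h88.y0]; ring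
  have h1 : eval x (C 2 + C (e / 4) * (X 1 + C 16 * (X 0 + X 1 + X 2)) : MvPolynomial (Fin 3) ℝ) =
      W5h88.y1 x e := by
    simp only [map_add, map_mul, eval_C, eval_X, W5h88.y1]; ring
  have h2 : eval x (C 3 + C (e / 6) * (X 2 + C 36 * (X 0 + X 1 + X 2)) : MvPolynomial (Fin 3) ℝ) =
      W5h88.y2 x e := by
    simp only [map_add, map_mul, eval_C, eval_X, W5h88.y2]; ring
  rw [← h0, ← h1, ← h2]
  rfl

theorem eval_point (k N : ℕ) (e : ℝ) (he : (N : ℝ) * e ^ 2 = 1) (x : Fin 3 → ℝ) :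
    eval (fun c => eval x (Y N e c)) (trunc (X 2 ^ k * ex) (3 + N)) =
      e ^ 6 * (W5h88.pp2 x e ^ k * W5h88.phi x e) := by
  rw [eval_trunc, map_mul, map_pow, eval_X, eval_ex]
  simp only [eval_Y]
  have h2 : (N : ℝ) * (e / 2) ^ 2 = 1 / 4 := by linear_combination (1 / 4 : ℝ) * he
  have h4 : (N : ℝ) * (e / 2) ^ 4 = e ^ 2 / 16 := by linear_combination (e ^ 2 / 16) * he
  have h6 : (N : ℝ) * (e / 2) ^ 6 = e ^ 4 / 64 := by linear_combination (e ^ 4 / 64) * he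
  have h8 : (N : ℝ) * (e / 2) ^ 8 = e ^ 6 / 256 := by linear_combination (e ^ 6 / 256) * he
  have h10 : (N : ℝ) * (e / 2) ^ 10 = e ^ 8 / 1024 := by linear_combination (e ^ 8 / 1024) * he
  have h12 : (N : ℝ) * (e / 2) ^ 12 = e ^ 10 / 4096 := by linear_combination (e ^ 10 / 4096) * he
  have h14 : (N : ℝ) * (e / 2) ^ 14 = e ^ 12 / 16384 := by
    linear_combination (e ^ 12 / 16384) * he
  have h16 : (N : ℝ) * (e / 2) ^ 16 = e ^ 14 / 65536 := by
    linear_combination (e ^ 14 / 65536) * he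
  rw [h2, h4, h6, h8, h10, h12, h14, h16]
  have h := W5h88.ff_eq x e
  have hp : W5h88.y0 x e ^ 2 + W5h88.y1 x e ^ 2 + W5h88.y2 x e ^ 2 + 1 / 4 = W5h88.pp2 x e := rfl
  rw [hp, h]
  ring

theorem no_cert (k : ℕ) : ¬ AnyDimSos (X 2 ^ k * ex) := by
  intro hs
  have hlim : ∀ x : Fin 3 → ℝ, Tendsto (fun n : ℕ => W5h88.pp2 x (1 / ((n : ℝ) + 1)) ^ k *
      W5h88.phi x (1 / ((n : ℝ) + 1))) atTop
      (𝓝 ((57 / 4) ^ k * W5h88.motz (576 * x 0) (3600 * x 1) (129600 * x 2))) := by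
    intro x
    have h0 : Tendsto (fun n : ℕ => 1 / ((n : ℝ) + 1)) atTop (𝓝 0) :=
      tendsto_one_div_add_atTop_nhds_zero_nat
    have h1 := ((W5h88.cont_pp2 x).tendsto 0).comp h0
    have h2 := ((W5h88.cont_phi x).tendsto 0).comp h0
    have h3 := (h1.pow k).mul h2
    rw [W5h88.pp2_zero, W5h88.phi_zero] at h3
    exact h3
  have hΦ : ∀ n : ℕ, ∃ (M : ℕ) (q : Fin M → MvPolynomial (Fin 3) ℝ),
      (∀ i, (q i).totalDegree ≤ k + 42) ∧
      ∀ x, W5h88.pp2 x (1 / ((n : ℝ) + 1)) ^ k * W5h88.phi x (1 / ((n : ℝ) + 1)) =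
        ∑ i, eval x (q i) ^ 2 := by
    intro n
    set N : ℕ := (n + 1) ^ 2 with hN
    set e : ℝ := 1 / ((n : ℝ) + 1) with he
    have hne : (n : ℝ) + 1 ≠ 0 := by positivity
    have he1 : (N : ℝ) * e ^ 2 = 1 := by
      rw [hN, he]; push_cast; field_simp
    have hepos : 0 < e := by rw [he]; positivity
    obtain ⟨M, h, hh⟩ := hs (3 + N) (by omega)
    have hhom : (∑ i, h i ^ 2).IsHomogeneous (2 * (k + 42)) := by
      rw [← hh]
      refine trunc_hom ?_ _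
      exact wmul _ (wpow k (k * 2) (wX 2) rfl) ex_hom (by ring)
    have hhi : ∀ i, (h i).IsHomogeneous (k + 42) := fun i =>
      W5h88.sos_hom Finset.univ h (k + 42) hhom i (Finset.mem_univ i)
    refine ⟨M, fun i => C ((e ^ 3)⁻¹) * aeval (Y N e) (h i), fun i => ?_, fun x => ?_⟩
    · refine (totalDegree_mul _ _).trans ?_
      rw [totalDegree_C, zero_add]
      exact totalDegree_aeval_le _ (Y_deg N e) (hhi i)
    · have h1 := eval_point k N e he1 x
      rw [hh, map_sum] at h1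
      have h2 : ∀ i, eval x (C ((e ^ 3)⁻¹) * aeval (Y N e) (h i)) ^ 2 =
          (e ^ 6)⁻¹ * eval (fun c => eval x (Y N e c)) (h i ^ 2) := by
        intro i
        rw [map_mul, eval_C, eval_aeval, map_pow, mul_pow]
        congr 1
        rw [inv_pow, ← pow_mul]
      rw [Finset.sum_congr rfl fun i _ => h2 i, ← Finset.mul_sum, h1, ← mul_assoc,
        inv_mul_cancel₀ (pow_ne_zero 6 hepos.ne'), one_mul]
  obtain ⟨B, hB⟩ := W5h88.sos_limit (m := k + 42) (fun (n : ℕ) (x : Fin 3 → ℝ) =>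
    W5h88.pp2 x (1 / ((n : ℝ) + 1)) ^ k * W5h88.phi x (1 / ((n : ℝ) + 1)))
    (fun x => (57 / 4) ^ k * W5h88.motz (576 * x 0) (3600 * x 1) (129600 * x 2)) hΦ hlim
  refine W5h88.motzkin_not ((57 / 4) ^ k * (576 ^ 4 * 3600 ^ 2))
    ((57 / 4) ^ k * (576 ^ 2 * 3600 ^ 4)) ((57 / 4) ^ k * (3 * (576 ^ 2 * 3600 ^ 2 * 129600 ^ 2)))
    ((57 / 4) ^ k * 129600 ^ 6) (by positivity) (fun j => W5h88.pol (B j)) fun x => ?_
  rw [← hB x, W5h88.motz]
  ring

/-- **Q2 has a negative answer.** There is a homogeneous symmetric function `f` of degree `2 d`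
(here `d = 42`), a polynomial in `p_2, p_4, ..., p_(2d)`, which is strictly positive on the unit
sphere of `ℓ²`, such that for no `k` is `p_2 ^ k f` an any-dimensional sum of squares. -/
theorem result : ∃ (d : ℕ) (f : MvPolynomial ℕ ℝ), 1 ≤ d ∧
    (∀ j ∈ f.vars, Even j ∧ 2 ≤ j ∧ j ≤ 2 * d) ∧
    f.IsWeightedHomogeneous (id : ℕ → ℕ) (2 * d) ∧
    (∀ x, InSphere x → 0 < value f x) ∧
    ∀ k : ℕ, ¬ AnyDimSos (X 2 ^ k * f) :=
  ⟨42, ex, by norm_num, ex_vars, ex_hom, fun _ hx => ex_pos hx, no_cert⟩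

end Pool.Agent.Results.MP_2f3180_ag.AnyDimSosFails
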